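import Pool.Agent.H935R3.LW.Stmts

set_option autoImplicit false
open Matrix

namespace Pool.Agent.H87R3.LW

open Pool.Agent.H935R3.LW

theorem x_th (h : A2) (c : A3) (d : A4) (x : E3)
    (hc : ∀ i j, ∑ a, c i j a * x a = 0) (hd : ∀ i j b, ∑ a, d i j a b * x a = -c i j b) (b : Fin 3) :
    ∑ a, x a * thA h c d a b = -tauA h c b := by
  unfold thA tauA
  have e1 : ∑ a, x a * (∑ i, ∑ j, h i j * d i j a b) = ∑ i, ∑ j, h i j * (∑ a, d i j a b * x a) := by
    simp only [Fin.sum_univ_three]
    ring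
  have e2 : ∑ a, x a * (∑ i, ∑ j, ∑ p, ∑ q, h i p * h j q * c p q b * c i j a) =
      ∑ i, ∑ j, ∑ p, ∑ q, h i p * h j q * c p q b * (∑ a, c i j a * x a) := by
    simp only [Finset.mul_sum]
    rw [Finset.sum_comm]
    refine Finset.sum_congr rfl fun i _ => ?_
    rw [Finset.sum_comm]
    refine Finset.sum_congr rfl fun j _ => ?_
    rw [Finset.sum_comm]
    refine Finset.sum_congr rfl fun p _ => ?_
    rw [Finset.sum_comm]
    refine Finset.sum_congr rfl fun q _ => ?_
    refine Finset.sum_congr rfl fun a _ => ?_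
    ring
  have e3 : ∑ a, x a * ((∑ i, ∑ j, h i j * d i j a b) -
      ∑ i, ∑ j, ∑ p, ∑ q, h i p * h j q * c p q b * c i j a) =
      ∑ a, x a * (∑ i, ∑ j, h i j * d i j a b) -
      ∑ a, x a * (∑ i, ∑ j, ∑ p, ∑ q, h i p * h j q * c p q b * c i j a) := by
    rw [← Finset.sum_sub_distrib]
    exact Finset.sum_congr rfl fun a _ => by ring
  rw [e3, e1, e2]
  simp only [hc, hd, mul_zero, Finset.sum_const_zero, sub_zero, mul_neg, Finset.sum_neg_distrib]

theorem x_u (h : A2) (c : A3) (d : A4) (x : E3)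
    (hc : ∀ i j, ∑ a, c i j a * x a = 0) (hc' : ∀ b k, ∑ a, c a b k * x a = 0)
    (hd : ∀ i j b, ∑ a, d i j a b * x a = -c i j b) :
    ∑ a, x a * uA h c d a = -nA h c := by
  have h1 := x_th h c d x hc hd
  unfold uA nA
  have e3 : ∑ a, x a * ((∑ b, thA h c d a b * htA h c b) - ∑ b, ∑ k, c a b k * hthA h c d b k) =
      ∑ b, (∑ a, x a * thA h c d a b) * htA h c b -
      ∑ b, ∑ k, (∑ a, c a b k * x a) * hthA h c d b k := by
    simp only [Fin.sum_univ_three]
    ring
  rw [e3]
  simp only [h1, hc', zero_mul, Finset.sum_const_zero, sub_zero, neg_mul, Finset.sum_neg_distrib]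

theorem taskPos : TaskPos := by
  intro hB hH F hF x hx
  obtain ⟨-, -, -, -, -, -, -, hsym⟩ := hB F hF
  obtain ⟨gS, hS, c1, c2, d1, d2, d3, -, -, -, -, -⟩ := hsym x hx
  obtain ⟨g1, g2, cx, dx, -, -⟩ := hH hB F hF x hx
  have hpd := hF.posdef x hx
  set g := G F x with hg
  set h := hh F x with hh'
  set c := cc F x with hc
  set d := dd F x with hd
  have hinv : g * g⁻¹ = 1 := Matrix.mul_nonsing_inv g ((Matrix.isUnit_iff_isUnit_det g).1 hpd.isUnit)
  have hhe : ∀ i j, h i j = g⁻¹ i j := fun i j => rfl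
  have hF0 : 0 < F x := hF.pos x hx
  have hcx' : ∀ b k, ∑ a, c a b k * x a = 0 := by
    intro b k
    rw [← cx b k]
    refine Finset.sum_congr rfl fun a _ => ?_
    rw [c1 a b k, c2 b a k]
  have hdx' : ∀ i j b, ∑ a, d i j a b * x a = -c i j b := by
    intro i j b
    rw [← dx i j b]
    exact Finset.sum_congr rfl fun a _ => by rw [d3 i j a b]
  have hxu := x_u h c d x cx hcx' hdx'
  have hNN : NN F x = nA h c := rfl
  have hpos : 0 ≤ nA h c := by
    have h1 := hpd.posSemidef.inv.dotProduct_mulVec_nonneg (fun a => tauA h c a)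
    have e : star (fun a => tauA h c a) ⬝ᵥ g⁻¹ *ᵥ (fun a => tauA h c a) = nA h c := by
      unfold nA htA
      simp only [dotProduct, mulVec, star_trivial, hhe]
    rwa [e] at h1
  refine ⟨hpos, fun hN => ?_⟩
  rw [hNN] at hN
  have hNpos : 0 < nA h c := lt_of_le_of_ne hpos (Ne.symm hN)
  set N := nA h c with hNdef
  set q : ℝ := F x ^ 2 with hq
  have hq0 : q ≠ 0 := by positivity
  -- `g v = u`
  have hgv : ∀ a, ∑ b, g a b * vA h c d b = uA h c d a := by
    intro a
    have h1 : g *ᵥ (g⁻¹ *ᵥ (fun b => uA h c d b)) = fun b => uA h c d b := by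
      rw [Matrix.mulVec_mulVec, hinv, Matrix.one_mulVec]
    exact congrFun h1 a
  have hVt : ∀ a, Vt F a x = vA h c d a / N + x a / q := fun a => rfl
  have hgx : ∀ a, ∑ b, g a b * x b = pd a (phi F) x := g1
  -- `x g v = -N`
  have hxgv : ∑ a, pd a (phi F) x * vA h c d a = -N := by
    have e1 : ∑ a, pd a (phi F) x * vA h c d a = ∑ b, x b * (∑ a, g b a * vA h c d a) := by
      simp only [← hgx]
      have s01 := gS 0 1
      have s02 := gS 0 2
      have s12 := gS 1 2
      simp only [Fin.sum_univ_three]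
      rw [s01, s02, s12]
      ring
    rw [e1]
    simp only [hgv]
    exact hxu
  have hvu : ∑ a, vA h c d a * uA h c d a = quA h c d := by
    unfold vA quA
    refine Finset.sum_congr rfl fun a _ => ?_
    rw [Finset.sum_mul]
    exact Finset.sum_congr rfl fun b _ => by ring
  have hsN : ss F x * N = quA h c d / N ^ 2 - 1 / q := by
    have : ss F x = (quA h c d / N ^ 2 - 1 / q) / N := rfl
    rw [this]
    field_simp
  have hnorm : ∑ a, ∑ b, g a b * Vt F a x * Vt F b x = ss F x * N := by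
    rw [hsN]
    have e1 : ∑ a, ∑ b, g a b * Vt F a x * Vt F b x =
        ∑ a, Vt F a x * (∑ b, g a b * Vt F b x) := by
      refine Finset.sum_congr rfl fun a _ => ?_
      rw [Finset.mul_sum]
      exact Finset.sum_congr rfl fun b _ => by ring
    have e2 : ∀ a, ∑ b, g a b * Vt F b x = uA h c d a / N + pd a (phi F) x / q := by
      intro a
      rw [← hgv a, ← hgx a, Finset.sum_div, Finset.sum_div, ← Finset.sum_add_distrib]
      exact Finset.sum_congr rfl fun b _ => by rw [hVt]; ring
    rw [e1]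
    simp only [e2]
    simp only [hVt]
    have e3 : ∑ a, (vA h c d a / N + x a / q) * (uA h c d a / N + pd a (phi F) x / q) =
        (∑ a, vA h c d a * uA h c d a) / N ^ 2 + (∑ a, pd a (phi F) x * vA h c d a) / (N * q) +
        (∑ a, x a * uA h c d a) / (N * q) + (∑ a, pd a (phi F) x * x a) / q ^ 2 := by
      rw [Finset.sum_div, Finset.sum_div, Finset.sum_div, Finset.sum_div,
        ← Finset.sum_add_distrib, ← Finset.sum_add_distrib, ← Finset.sum_add_distrib]
      refine Finset.sum_congr rfl fun a _ => ?_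
      field_simp
      ring
    rw [e3, hvu, hxgv, hxu, g2]
    field_simp
    ring
  have htan : ∑ a, pd a (phi F) x * Vt F a x = 0 := by
    have e3 : ∑ a, pd a (phi F) x * Vt F a x =
        (∑ a, pd a (phi F) x * vA h c d a) / N + (∑ a, pd a (phi F) x * x a) / q := by
      rw [Finset.sum_div, Finset.sum_div, ← Finset.sum_add_distrib]
      refine Finset.sum_congr rfl fun a _ => ?_
      rw [hVt]
      ring
    rw [e3, hxgv, g2]
    field_simp
    ring
  refine ⟨hnorm, ?_, htan⟩
  have h2 := hpd.posSemidef.dotProduct_mulVec_nonneg (fun a => Vt F a x)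
  have e : star (fun a => Vt F a x) ⬝ᵥ g *ᵥ (fun a => Vt F a x) =
      ∑ a, ∑ b, g a b * Vt F a x * Vt F b x := by
    simp only [dotProduct, mulVec, star_trivial]
    refine Finset.sum_congr rfl fun a _ => ?_
    rw [Finset.mul_sum]
    exact Finset.sum_congr rfl fun b _ => by ring
  rw [e, hnorm] at h2
  by_contra hneg
  push Not at hneg
  have := mul_neg_of_neg_of_pos hneg hNpos
  linarith

end Pool.Agent.H87R3.LW
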